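import Pool.Agent.Lib.MP_ab86ea_al.U.Defs

/-! P9: the criterion for O*-groups -/

set_option autoImplicit false

universe u

namespace Pool.Agent.KokorinU

section OStarAux

variable {G : Type u} [Group G]

theorem SS.of_self (a : G) : SS a a := by
  have h := SS.conj (a := a) 1
  simpa using h

theorem SS.conj' {a b : G} (h : SS a b) : ∀ g : G, SS a (g * b * g⁻¹) := by
  induction h with
  | conj x =>
    intro g
    have h := SS.conj (a := a) (g * x)
    have e : g * x * a * (g * x)⁻¹ = g * (x * a * x⁻¹) * g⁻¹ := by group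
    rwa [e] at h
  | mul b c _ _ ihb ihc =>
    intro g
    have h := SS.mul _ _ (ihb g) (ihc g)
    have e : g * b * g⁻¹ * (g * c * g⁻¹) = g * (b * c) * g⁻¹ := by group
    rwa [e] at h

theorem SS.inv {a b : G} (h : SS a b) : SS a⁻¹ b⁻¹ := by
  induction h with
  | conj x =>
    have h := SS.conj (a := a⁻¹) x
    have e : x * a⁻¹ * x⁻¹ = (x * a * x⁻¹)⁻¹ := by group
    rwa [e] at h
  | mul b c _ _ ihb ihc =>
    have h := SS.mul _ _ ihc ihb
    have e : c⁻¹ * b⁻¹ = (b * c)⁻¹ := by group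
    rwa [e] at h

/-- closed positive sets -/
structure PCone (Q : Set G) : Prop where
  one : (1 : G) ∉ Q
  mul : ∀ a b, a ∈ Q → b ∈ Q → a * b ∈ Q
  conj : ∀ g a, a ∈ Q → g * a * g⁻¹ ∈ Q

theorem SS.mem_of_closed {Q : Set G} (mul : ∀ a b, a ∈ Q → b ∈ Q → a * b ∈ Q)
    (conj : ∀ g a, a ∈ Q → g * a * g⁻¹ ∈ Q) {a b : G} (ha : a ∈ Q) (h : SS a b) : b ∈ Q := by
  induction h with
  | conj x => exact conj x a ha
  | mul b c _ _ ihb ihc => exact mul b c ihb ihc

theorem one_not_SS {P : G → Prop} (hP : IsCone P) {a : G} (ha : a ≠ 1) : ¬ SS a 1 := by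
  intro h
  rcases hP.total a ha with h1 | h1
  · exact hP.one (SS.mem_of_closed (Q := {x | P x}) hP.mul hP.conj h1 h)
  · have h2 := h.inv
    have h3 := SS.mem_of_closed (Q := {x | P x}) hP.mul hP.conj h1 h2
    apply hP.one
    simpa using h3

/-- the enlarged set -/
def enl (Q : Set G) (a : G) : Set G :=
  {x | x ∈ Q ∨ SS a x ∨ ∃ q ∈ Q, ∃ s, SS a s ∧ x = q * s}

theorem enl_mul {Q : Set G} (mul : ∀ a b, a ∈ Q → b ∈ Q → a * b ∈ Q)
    (conj : ∀ g a, a ∈ Q → g * a * g⁻¹ ∈ Q) (a : G) :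
    ∀ x y, x ∈ enl Q a → y ∈ enl Q a → x * y ∈ enl Q a := by
  rintro x y (hx | hx | ⟨q, hq, s, hs, rfl⟩) (hy | hy | ⟨q', hq', s', hs', rfl⟩)
  · exact Or.inl (mul _ _ hx hy)
  · exact Or.inr (Or.inr ⟨x, hx, y, hy, rfl⟩)
  · exact Or.inr (Or.inr ⟨x * q', mul _ _ hx hq', s', hs', by group⟩)
  · exact Or.inr (Or.inr ⟨x * y * x⁻¹, conj x y hy, x, hx, by group⟩)
  · exact Or.inr (Or.inl (SS.mul _ _ hx hy))
  · exact Or.inr (Or.inr ⟨x * q' * x⁻¹, conj x q' hq', x * s', SS.mul _ _ hx hs', by group⟩)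
  · exact Or.inr (Or.inr ⟨q * (s * y * s⁻¹), mul _ _ hq (conj s y hy), s, hs, by group⟩)
  · exact Or.inr (Or.inr ⟨q, hq, s * y, SS.mul _ _ hs hy, by group⟩)
  · exact Or.inr (Or.inr ⟨q * (s * q' * s⁻¹), mul _ _ hq (conj s q' hq'), s * s',
      SS.mul _ _ hs hs', by group⟩)

theorem enl_conj {Q : Set G}
    (conj : ∀ g a, a ∈ Q → g * a * g⁻¹ ∈ Q) (a : G) :
    ∀ g x, x ∈ enl Q a → g * x * g⁻¹ ∈ enl Q a := by
  rintro g x (hx | hx | ⟨q, hq, s, hs, rfl⟩)
  · exact Or.inl (conj _ _ hx)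
  · exact Or.inr (Or.inl (hx.conj' g))
  · exact Or.inr (Or.inr ⟨g * q * g⁻¹, conj _ _ hq, g * s * g⁻¹, hs.conj' g, by group⟩)

theorem exists_of_max {P : G → Prop} (hP : IsCone P) {Q : Set G} (hQ : PCone Q)
    (hmax : ∀ Q' : Set G, PCone Q' → Q ⊆ Q' → Q' ⊆ Q) {a : G} (ha : a ≠ 1) (haQ : a ∉ Q) :
    ∃ s, SS a s ∧ s⁻¹ ∈ Q := by
  by_contra hcon
  push Not at hcon
  apply haQ
  apply hmax (enl Q a) ⟨?_, enl_mul hQ.mul hQ.conj a, enl_conj hQ.conj a⟩
  · intro x hx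
    exact Or.inl hx
  · exact Or.inr (Or.inl (SS.of_self a))
  · rintro (h | h | ⟨q, hq, s, hs, h⟩)
    · exact hQ.one h
    · exact one_not_SS hP ha h
    · apply hcon s hs
      have : s⁻¹ = q := by
        rw [inv_eq_iff_eq_inv]
        exact (eq_inv_of_mul_eq_one_right h.symm)
      rw [this]
      exact hq

theorem exists_total {P : G → Prop} (hP : IsCone P)
    (h : ∀ a b c : G, a ≠ 1 → SS a b → SS a c → ∃ z, SS b z ∧ SS c z)
    (N : Set G) (hN : PCone N) :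
    ∃ Q : Set G, PCone Q ∧ N ⊆ Q ∧ ∀ a, a ≠ 1 → a ∈ Q ∨ a⁻¹ ∈ Q := by
  obtain ⟨Q, hNQ, hQ⟩ := zorn_subset_nonempty {Q : Set G | PCone Q} (by
    intro c hc hchain hne
    refine ⟨⋃₀ c, ?_, fun s hs => Set.subset_sUnion_of_mem hs⟩
    refine ⟨?_, ?_, ?_⟩
    · rintro ⟨s, hs, h1⟩
      exact (hc hs).one h1
    · rintro a b ⟨s, hs, has⟩ ⟨t, ht, hbt⟩
      rcases hchain.total hs ht with hst | hst
      · exact ⟨t, ht, (hc ht).mul _ _ (hst has) hbt⟩
      · exact ⟨s, hs, (hc hs).mul _ _ has (hst hbt)⟩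
    · rintro g a ⟨s, hs, has⟩
      exact ⟨s, hs, (hc hs).conj _ _ has⟩) N hN
  refine ⟨Q, hQ.prop, hNQ, ?_⟩
  intro a ha
  by_contra hcon
  push Not at hcon
  have hmax : ∀ Q' : Set G, PCone Q' → Q ⊆ Q' → Q' ⊆ Q := fun Q' h1 h2 => hQ.le_of_ge h1 h2
  obtain ⟨s, hs, hsQ⟩ := exists_of_max hP hQ.prop hmax ha hcon.1
  obtain ⟨s', hs', hsQ'⟩ := exists_of_max hP hQ.prop hmax (inv_ne_one.mpr ha) hcon.2
  have hs2 : SS a s'⁻¹ := by
    have := hs'.inv
    rwa [inv_inv] at this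
  obtain ⟨z, hz1, hz2⟩ := h a s s'⁻¹ ha hs hs2
  have h1 : z ∈ Q := hz2.mem_of_closed hQ.prop.mul hQ.prop.conj hsQ'
  have h2 : z⁻¹ ∈ Q := hz1.inv.mem_of_closed hQ.prop.mul hQ.prop.conj hsQ
  apply hQ.prop.one
  have := hQ.prop.mul _ _ h1 h2
  rwa [mul_inv_cancel] at this

end OStarAux

theorem ostar {G : Type u} [Group G] {P : G → Prop} (hP : IsCone P)
    (h : ∀ a b c : G, a ≠ 1 → SS a b → SS a c → ∃ z, SS b z ∧ SS c z) :
    ∀ r : G → G → Prop,
      (∀ a, r a a) →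
      (∀ a b, r a b → r b a → a = b) →
      (∀ a b c, r a b → r b c → r a c) →
      (∀ a b c d, r a b → r (c * a * d) (c * b * d)) →
      ∃ s : G → G → Prop,
        (∀ a b, r a b → s a b) ∧
        (∀ a b, s a b → s b a → a = b) ∧
        (∀ a b c, s a b → s b c → s a c) ∧
        (∀ a b, s a b ∨ s b a) ∧
        (∀ a b c d, s a b → s (c * a * d) (c * b * d)) := by
  intro r hrefl hanti htrans hinv
  have hN : PCone {a : G | r 1 a ∧ a ≠ 1} := by
    refine ⟨fun h => h.2 rfl, ?_, ?_⟩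
    · rintro a b ⟨ha, ha1⟩ ⟨hb, hb1⟩
      have h1 : r b (a * b) := by
        have := hinv 1 a 1 b ha
        simpa using this
      have h2 : r a (a * b) := by
        have := hinv 1 b a 1 hb
        simpa using this
      refine ⟨htrans _ _ _ hb h1, ?_⟩
      intro hab
      apply ha1
      rw [hab] at h2
      exact hanti a 1 h2 ha
    · rintro g a ⟨ha, ha1⟩
      refine ⟨?_, ?_⟩
      · have := hinv 1 a g g⁻¹ ha
        simpa using this
      · intro h1
        apply ha1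
        have : a = g⁻¹ * (g * a * g⁻¹) * g := by group
        rw [this, h1]
        group
  obtain ⟨Q, hQ, hNQ, htot⟩ := exists_total hP h _ hN
  refine ⟨fun a b => a = b ∨ a⁻¹ * b ∈ Q, ?_, ?_, ?_, ?_, ?_⟩
  · intro a b hab
    by_cases hab' : a = b
    · exact Or.inl hab'
    · right
      apply hNQ
      refine ⟨?_, ?_⟩
      · have := hinv a b a⁻¹ 1 hab
        simpa using this
      · intro h1
        exact hab' (inv_mul_eq_one.mp h1)
  · rintro a b (hab | hab) (hba | hba)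
    · exact hab
    · exact hab
    · exact hba.symm
    · exfalso
      apply hQ.one
      have := hQ.mul _ _ hab hba
      have e : a⁻¹ * b * (b⁻¹ * a) = 1 := by group
      rwa [e] at this
  · rintro a b c (rfl | hab) (rfl | hbc)
    · exact Or.inl rfl
    · exact Or.inr hbc
    · exact Or.inr hab
    · right
      have := hQ.mul _ _ hab hbc
      have e : a⁻¹ * b * (b⁻¹ * c) = a⁻¹ * c := by group
      rwa [e] at this
  · intro a b
    by_cases hab : a = b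
    · exact Or.inl (Or.inl hab)
    · have h1 : a⁻¹ * b ≠ 1 := fun h1 => hab (inv_mul_eq_one.mp h1)
      rcases htot _ h1 with h2 | h2
      · exact Or.inl (Or.inr h2)
      · right
        right
        have e : (a⁻¹ * b)⁻¹ = b⁻¹ * a := by group
        rwa [e] at h2
  · rintro a b c d (rfl | hab)
    · exact Or.inl rfl
    · right
      have := hQ.conj d⁻¹ _ hab
      have e : d⁻¹ * (a⁻¹ * b) * d⁻¹⁻¹ = (c * a * d)⁻¹ * (c * b * d) := by group
      rwa [e] at this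


end Pool.Agent.KokorinU
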