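import Pool.Agent.Lib.MP_ab86ea_al.U.Iter
import Pool.Agent.Lib.MP_ab86ea_al.U.Phi
import Pool.Agent.Lib.MP_ab86ea_al.U.OStar

/-! P10: assembly -/

set_option autoImplicit false

universe u

namespace Pool.Agent.KokorinU

theorem ss_conj' {G : Type u} [Group G] {a b : G} (h : SS a b) (x : G) : SS a (x * b * x⁻¹) := by
  induction h with
  | conj y =>
    have : x * (y * a * y⁻¹) * x⁻¹ = (x * y) * a * (x * y)⁻¹ := by group
    rw [this]; exact SS.conj _
  | mul u v _ _ hu hv =>
    have : x * (u * v) * x⁻¹ = (x * u * x⁻¹) * (x * v * x⁻¹) := by group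
    rw [this]; exact SS.mul _ _ hu hv

theorem ss_trans' {G : Type u} [Group G] {a b c : G} (h : SS a b) (h' : SS b c) : SS a c := by
  induction h' with
  | conj x => exact ss_conj' h x
  | mul u v _ _ hu hv => exact SS.mul _ _ hu hv

theorem ss_inv' {G : Type u} [Group G] {a b : G} (h : SS a b) : SS a⁻¹ b⁻¹ := by
  induction h with
  | conj y =>
    have : (y * a * y⁻¹)⁻¹ = y * a⁻¹ * y⁻¹ := by group
    rw [this]; exact SS.conj _
  | mul u v _ _ hu hv =>
    rw [mul_inv_rev]; exact SS.mul _ _ hv hu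

theorem final : ∀ (G : Type u) [Group G],
      (∃ s : G → G → Prop,
        (∀ a b, s a b → s b a → a = b) ∧
        (∀ a b c, s a b → s b c → s a c) ∧
        (∀ a b, s a b ∨ s b a) ∧
        (∀ a b c d, s a b → s (c * a * d) (c * b * d))) →
      ∃ (H : Type u) (_ : Group H) (f : G →* H), Function.Injective f ∧
        ∀ r : H → H → Prop,
          (∀ a, r a a) →
          (∀ a b, r a b → r b a → a = b) →
          (∀ a b c, r a b → r b c → r a c) →
          (∀ a b c d, r a b → r (c * a * d) (c * b * d)) →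
          ∃ s : H → H → Prop,
            (∀ a b, r a b → s a b) ∧
            (∀ a b, s a b → s b a → a = b) ∧
            (∀ a b c, s a b → s b c → s a c) ∧
            (∀ a b, s a b ∨ s b a) ∧
            (∀ a b c d, s a b → s (c * a * d) (c * b * d)) := by
  intro G _ ⟨s, hanti, htrans, htot, hmul⟩
  have hP : IsCone (fun a : G => s 1 a ∧ a ≠ 1) := by
    refine ⟨fun h => h.2 rfl, ?_, ?_, ?_⟩
    · rintro a b ⟨ha, ha1⟩ ⟨hb, hb1⟩
      have h1 : s a (a * b) := by simpa using hmul 1 b a 1 hb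
      refine ⟨htrans _ _ _ ha h1, fun h => ha1 ?_⟩
      rw [h] at h1
      exact hanti _ _ h1 ha
    · rintro g a ⟨ha, ha1⟩
      refine ⟨by simpa using hmul 1 a g g⁻¹ ha, fun h => ha1 ?_⟩
      have : a = g⁻¹ * (g * a * g⁻¹) * g := by group
      rw [this, h]; group
    · intro a ha
      rcases htot 1 a with h | h
      · exact Or.inl ⟨h, ha⟩
      · refine Or.inr ⟨?_, inv_ne_one.2 ha⟩
        simpa using hmul a 1 a⁻¹ 1 h
  obtain ⟨M, hM, Q, f, hQ, hf, hE⟩ := omega hP
  refine ⟨M, hM, f, ?_, ?_⟩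
  · rw [injective_iff_map_eq_one]
    intro a ha
    by_contra hne
    rcases hP.total a hne with h | h
    · have := hf a h
      rw [ha] at this
      exact hQ.one this
    · have := hf _ h
      rw [map_inv, ha, inv_one] at this
      exact hQ.one this
  · have key : ∀ a b c : M, Q a → SS a b → SS a c → ∃ z, SS b z ∧ SS c z := by
      intro a b c ha hb hc
      obtain ⟨b1, c1, hb1, hc1, hk⟩ := reduction hQ ha hb hc
      obtain ⟨x, y, z, hxyz⟩ := hE _ _ hk
      refine ⟨(x * b1 * x⁻¹) * b1, ss_trans' hb1 (SS.mul _ _ (SS.conj x) ?_), ?_⟩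
      · simpa using SS.conj (a := b1) 1
      · rw [hxyz]
        exact ss_trans' hc1 (SS.mul _ _ (SS.conj y) (SS.conj z))
    refine ostar hQ ?_
    intro a b c ha hb hc
    rcases hQ.total a ha with h | h
    · exact key a b c h hb hc
    · obtain ⟨z, hz, hz'⟩ := key a⁻¹ b⁻¹ c⁻¹ h (ss_inv' hb) (ss_inv' hc)
      refine ⟨z⁻¹, ?_, ?_⟩
      · simpa using ss_inv' hz
      · simpa using ss_inv' hz'

end Pool.Agent.KokorinU
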