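import Pool.Agent.Lib.MP_ab86ea_al.U.Defs

/-! Kokorin problem: words, cuts and the order on the group of good automorphisms -/

/-! P1: lexicographic order on words -/

set_option autoImplicit false

universe u

namespace Pool.Agent.KokorinU

section Words

variable {A : Type u}

theorem cons_head_tail (s : ℕ → A) : cons (s 0) (tail s) = s := by
  funext n
  cases n <;> rfl

theorem cons_inj {a b : A} {s t : ℕ → A} : cons a s = cons b t ↔ a = b ∧ s = t := by
  constructor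
  · intro h
    refine ⟨congrFun h 0, funext fun n => congrFun h (n + 1)⟩
  · rintro ⟨rfl, rfl⟩
    rfl

theorem app_append (P Q : List A) (s : ℕ → A) : app (P ++ Q) s = app P (app Q s) := by
  induction P with
  | nil => rfl
  | cons a P ih => simp only [List.cons_append, app, ih]

theorem app_inj {P : List A} {s t : ℕ → A} : app P s = app P t ↔ s = t := by
  induction P with
  | nil => rfl
  | cons a P ih => simp only [app, cons_inj, ih, true_and]

theorem app_eq_app {P Q : List A} {s t : ℕ → A} (h : app P s = app Q t)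
    (hl : P.length ≤ Q.length) : ∃ R, Q = P ++ R ∧ s = app R t := by
  induction P generalizing Q with
  | nil => exact ⟨Q, rfl, h⟩
  | cons a P ih =>
    cases Q with
    | nil => simp at hl
    | cons b Q =>
      simp only [app, cons_inj] at h
      obtain ⟨rfl, h⟩ := h
      obtain ⟨R, h1, h2⟩ := ih h (by simpa using hl)
      exact ⟨R, by rw [h1]; rfl, h2⟩

variable [LinearOrder A]

theorem lex_lt_iff {s t : ℕ → A} :
    toLex s < toLex t ↔ ∃ i, (∀ j < i, s j = t j) ∧ s i < t i := Iff.rfl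

theorem cons_lt_cons {a b : A} {s t : ℕ → A} :
    toLex (cons a s) < toLex (cons b t) ↔ a < b ∨ (a = b ∧ toLex s < toLex t) := by
  rw [lex_lt_iff, lex_lt_iff]
  constructor
  · rintro ⟨i, h1, h2⟩
    cases i with
    | zero => exact Or.inl h2
    | succ i =>
      right
      exact ⟨h1 0 (Nat.succ_pos i), i, fun j hj => h1 (j + 1) (Nat.succ_lt_succ hj), h2⟩
  · rintro (h | ⟨h, i, h1, h2⟩)
    · exact ⟨0, fun j hj => absurd hj (Nat.not_lt_zero j), h⟩
    · refine ⟨i + 1, fun j hj => ?_, h2⟩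
      cases j with
      | zero => exact h
      | succ j => exact h1 j (Nat.lt_of_succ_lt_succ hj)

theorem app_lt_app {P : List A} {s t : ℕ → A} :
    toLex (app P s) < toLex (app P t) ↔ toLex s < toLex t := by
  induction P with
  | nil => rfl
  | cons a P ih => simp only [app, cons_lt_cons, lt_irrefl, true_and, false_or, ih]

theorem app_le_app {P : List A} {s t : ℕ → A} :
    toLex (app P s) ≤ toLex (app P t) ↔ toLex s ≤ toLex t := by
  rw [← not_lt, ← not_lt]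
  exact not_congr app_lt_app

theorem cons_le_cons {a b : A} {s t : ℕ → A} :
    toLex (cons a s) ≤ toLex (cons b t) ↔ a < b ∨ (a = b ∧ toLex s ≤ toLex t) := by
  rw [← not_lt, ← not_lt]
  refine (not_congr cons_lt_cons).trans ?_
  constructor
  · intro h
    push Not at h
    rcases lt_or_eq_of_le h.1 with h1 | h1
    · exact Or.inl h1
    · exact Or.inr ⟨h1, h.2 h1.symm⟩
  · rintro (h | ⟨h, h'⟩) h2
    · rcases h2 with h2 | ⟨h2, -⟩
      · exact lt_asymm h h2
      · exact h.ne h2.symm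
    · rcases h2 with h2 | ⟨-, h2⟩
      · exact h2.ne h.symm
      · exact h' h2

/-- cylinders are convex -/
theorem cyl_convex {P : List A} {s t r : ℕ → A} (h1 : toLex (app P s) ≤ toLex t)
    (h2 : toLex t ≤ toLex (app P r)) : ∃ q, t = app P q := by
  induction P generalizing t with
  | nil => exact ⟨t, rfl⟩
  | cons a P ih =>
    have e : t = cons (t 0) (tail t) := (cons_head_tail t).symm
    rw [e] at h1 h2
    simp only [app] at h1 h2
    rw [cons_le_cons] at h1 h2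
    have h3 : t 0 = a := by
      rcases h1 with h1 | ⟨h1, -⟩
      · rcases h2 with h2 | ⟨h2, -⟩
        · exact absurd (h1.trans h2) (lt_irrefl _)
        · exact h2
      · exact h1.symm
    have h4 : toLex (app P s) ≤ toLex (tail t) := by
      rcases h1 with h1 | ⟨-, h1⟩
      · exact absurd h3 h1.ne'
      · exact h1
    have h5 : toLex (tail t) ≤ toLex (app P r) := by
      rcases h2 with h2 | ⟨-, h2⟩
      · exact absurd h3 h2.ne
      · exact h2
    obtain ⟨q, hq⟩ := ih h4 h5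
    exact ⟨q, by rw [e, hq, h3]; rfl⟩

theorem below_cyl {P : List A} {s t r : ℕ → A} (h1 : ¬ ∃ q, t = app P q)
    (h2 : toLex t < toLex (app P s)) : toLex t < toLex (app P r) := by
  by_contra h
  exact h1 (cyl_convex (not_lt.mp h) h2.le)

end Words

namespace Sys

variable {A 𝒢 : Type u} [LinearOrder A] [Group 𝒢] [MulAction 𝒢 A] (S : Sys A 𝒢)

theorem wd_app (P : List A) (s : ℕ → A) :
    S.Wd (app P s) ↔ (∀ b ∈ P, b ∈ S.V0) ∧ S.Wd s := by
  induction P with
  | nil => simp [app]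
  | cons a P ih =>
    constructor
    · intro h
      have h1 := (ih.1 fun i => h (i + 1))
      refine ⟨fun b hb => ?_, h1.2⟩
      rcases List.mem_cons.1 hb with rfl | hb
      · exact h 0
      · exact h1.1 b hb
    · rintro ⟨h1, h2⟩ i
      cases i with
      | zero => exact h1 a (List.mem_cons_self ..)
      | succ i => exact ih.2 ⟨fun b hb => h1 b (List.mem_cons_of_mem _ hb), h2⟩ i

/-- membership of a word in the chain -/
theorem mem_iff (P : List A) (a : A) (w : ℕ → A) :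
    ((app P (cons a w)) 0 ∈ S.V ∧ ∀ i, (app P (cons a w)) (i + 1) ∈ S.V0) ↔
      S.Pre P ∧ a ∈ S.after P ∧ S.Wd w := by
  cases P with
  | nil => simp only [app, Pre, after, true_and]; rfl
  | cons b P =>
    have h := S.wd_app P (cons a w)
    have h2 : S.Wd (cons a w) ↔ a ∈ S.V0 ∧ S.Wd w := by
      constructor
      · intro h; exact ⟨h 0, fun i => h (i + 1)⟩
      · rintro ⟨h1, h2⟩ i
        cases i with
        | zero => exact h1
        | succ i => exact h2 i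
    rw [h2] at h
    simp only [Pre, after]
    change (b ∈ S.V ∧ S.Wd (app P (cons a w))) ↔ _
    rw [h]
    tauto

end Sys

end Pool.Agent.KokorinU

/-! P2a: images of cuts, the group of good automorphisms -/

set_option autoImplicit false

namespace Pool.Agent.KokorinU

namespace Sys

variable {A 𝒢 : Type u} [LinearOrder A] [Group 𝒢] [MulAction 𝒢 A] (S : Sys A 𝒢)

theorem exists_wd : ∃ w : ℕ → A, S.Wd w := by
  obtain ⟨a, ha⟩ := S.ne
  exact ⟨fun _ => a, fun _ => ha⟩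

/-- the word `P a w` as a point of the chain -/
def pt (P : List A) (a : A) (w : ℕ → A) (h : S.Pre P ∧ a ∈ S.after P ∧ S.Wd w) : S.X :=
  ⟨toLex (app P (cons a w)), (S.mem_iff P a w).2 h⟩

theorem pt_val {P : List A} {a : A} {w : ℕ → A} (h : S.Pre P ∧ a ∈ S.after P ∧ S.Wd w) :
    (S.pt P a w h).1 = toLex (app P (cons a w)) := rfl

theorem mem_of_eq {s : S.X} {P : List A} {a : A} {w : ℕ → A}
    (h : s.1 = toLex (app P (cons a w))) : S.Pre P ∧ a ∈ S.after P ∧ S.Wd w := by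
  rw [← S.mem_iff P a w]
  have := s.2
  rw [h] at this
  exact this

theorem eq_pt {s : S.X} {P : List A} {a : A} {w : ℕ → A}
    (h : s.1 = toLex (app P (cons a w))) : s = S.pt P a w (S.mem_of_eq h) := Subtype.ext h

theorem lt_pt {P : List A} {a b : A} (w w' : ℕ → A) (h : a < b) :
    toLex (app P (cons a w)) < toLex (app P (cons b w')) :=
  app_lt_app.2 (cons_lt_cons.2 (Or.inl h))

theorem letter_le {P : List A} {a b : A} {w w' : ℕ → A}
    (h : toLex (app P (cons a w)) ≤ toLex (app P (cons b w'))) : a ≤ b := by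
  by_contra hc
  exact absurd h (not_le.2 (lt_pt w' w (not_le.1 hc)))

variable {S}

theorem Germ.apply {f : S.X ≃o S.X} {P : List A} {g : 𝒢} {P' : List A} {a : A}
    (hg : S.Germ f P g P' a) {w : ℕ → A} (h : S.Pre P ∧ a ∈ S.after P ∧ S.Wd w) :
    ∃ h', f (S.pt P a w h) = S.pt P' (g • a) w h' := by
  have h1 := hg (S.pt P a w h) w rfl
  exact ⟨S.mem_of_eq h1, S.eq_pt h1⟩

theorem pt_mem_U {P : List A} {u : Set A} (hc : S.Cut P u) {a : A} {w : ℕ → A}
    (h : S.Pre P ∧ a ∈ S.after P ∧ S.Wd w) : S.pt P a w h ∈ S.U P u ↔ a ∈ u := by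
  constructor
  · rintro ⟨b, hb, w', _, hle⟩
    exact hc.up b hb a h.2.1 (letter_le hle)
  · intro ha
    exact ⟨a, ha, w, h.2.2, le_rfl⟩

theorem U_up {P : List A} {u : Set A} {s t : S.X} (hs : s ∈ S.U P u) (h : s ≤ t) :
    t ∈ S.U P u := by
  obtain ⟨a, ha, w, hw, hle⟩ := hs
  exact ⟨a, ha, w, hw, le_trans hle h⟩

theorem exists_small {P : List A} {u : Set A} (hc : S.Cut P u) {a₀ : A} (ha₀ : a₀ ∈ u)
    {s : S.X} (hs : s ∈ S.U P u) : ∃ a ∈ u, a < a₀ ∧ ∀ w h, S.pt P a w h < s := by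
  obtain ⟨b, hb, w', hw', hle⟩ := hs
  obtain ⟨c, hcu, hcb, hca⟩ : ∃ c ∈ u, c < b ∧ c < a₀ := by
    rcases le_total a₀ b with h | h
    · obtain ⟨c, hc1, hc2⟩ := hc.nomin a₀ ha₀
      exact ⟨c, hc1, hc2.trans_le h, hc2⟩
    · obtain ⟨c, hc1, hc2⟩ := hc.nomin b hb
      exact ⟨c, hc1, hc2, hc2.trans_le h⟩
  refine ⟨c, hcu, hca, fun w _ => ?_⟩
  have h1 : toLex (app P (cons c w)) < s.1 := lt_of_lt_of_le (lt_pt w w' hcb) hle
  exact h1

theorem act_le (S : Sys A 𝒢) (g : 𝒢) {a b : A} (h : a ≤ b) : g • a ≤ g • b := by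
  rcases h.lt_or_eq with h | h
  · exact (S.mono g a b h).le
  · rw [h]

theorem germ_mem {f : S.X ≃o S.X} {P u a0 g P'} (hc : S.Cut P u)
    (hg : ∀ a ∈ u, a ≤ a0 → S.Germ f P g P' a) :
    ∀ a ∈ u, a ≤ a0 → S.Pre P' ∧ g • a ∈ S.after P' := by
  intro a ha haa
  obtain ⟨w, hw⟩ := S.exists_wd
  obtain ⟨h', -⟩ := (hg a ha haa).apply ⟨hc.pre, hc.sub a ha, hw⟩
  exact ⟨h'.1, h'.2.1⟩

variable (S)

theorem cut_im {f : S.X ≃o S.X} {P u a0 g P'} (hc : S.Cut P u) (h0 : a0 ∈ u)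
    (hg : ∀ a ∈ u, a ≤ a0 → S.Germ f P g P' a) : S.Cut P' (S.im P' u a0 g) := by
  have hm := germ_mem hc hg
  refine ⟨(hm a0 h0 le_rfl).1, fun a ha => ha.1, ⟨g • a0, (hm a0 h0 le_rfl).2, a0, h0, le_rfl,
    le_rfl⟩, ?_, ?_⟩
  · rintro a ⟨-, b, hb, hba, hle⟩ c hc' hac
    exact ⟨hc', b, hb, hba, hle.trans hac⟩
  · rintro a ⟨-, b, hb, hba, hle⟩
    obtain ⟨c, hcu, hcb⟩ := hc.nomin b hb
    exact ⟨g • c, ⟨(hm c hcu (hcb.le.trans hba)).2, c, hcu, hcb.le.trans hba, le_rfl⟩,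
      (S.mono g c b hcb).trans_le hle⟩

theorem smul_mem_after {f : S.X ≃o S.X} {P u a0 g P'} (hc : S.Cut P u) (h0 : a0 ∈ u)
    (hg : ∀ a ∈ u, a ≤ a0 → S.Germ f P g P' a) :
    ∀ a ∈ u, a ≤ a0 → g • a ∈ S.im P' u a0 g := by
  intro a ha haa
  exact ⟨(germ_mem hc hg a ha haa).2, a, ha, haa, le_rfl⟩

theorem U_im {f : S.X ≃o S.X} {P u a0 g P'} (hc : S.Cut P u) (h0 : a0 ∈ u)
    (hg : ∀ a ∈ u, a ≤ a0 → S.Germ f P g P' a) : f '' S.U P u = S.U P' (S.im P' u a0 g) := by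
  have hm := germ_mem hc hg
  obtain ⟨w₀, hw₀⟩ := S.exists_wd
  have hcim := S.cut_im hc h0 hg
  ext t
  constructor
  · rintro ⟨s, hs, rfl⟩
    obtain ⟨a, ha, haa, hlt⟩ := exists_small hc h0 hs
    obtain ⟨h', he⟩ := (hg a ha haa.le).apply ⟨hc.pre, hc.sub a ha, hw₀⟩
    have h1 : f (S.pt P a w₀ ⟨hc.pre, hc.sub a ha, hw₀⟩) < f s := f.lt_iff_lt.2 (hlt _ _)
    rw [he] at h1
    exact ⟨g • a, S.smul_mem_after hc h0 hg a ha haa.le, w₀, hw₀, h1.le⟩
  · rintro ⟨b, ⟨hb, a, ha, haa, hle⟩, w, hw, hbt⟩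
    obtain ⟨c, hcu, hca⟩ := hc.nomin a ha
    have hca0 := hca.le.trans haa
    refine ⟨f.symm t, ?_, f.apply_symm_apply t⟩
    obtain ⟨h', he⟩ := (hg c hcu hca0).apply ⟨hc.pre, hc.sub c hcu, hw⟩
    have h1 : f (S.pt P c w ⟨hc.pre, hc.sub c hcu, hw⟩) < t := by
      rw [he]
      have h2 : toLex (app P' (cons (g • c) w)) < t.1 :=
        lt_of_lt_of_le (lt_pt w w ((S.mono g c a hca).trans_le hle)) hbt
      exact h2
    refine ⟨c, hcu, w, hw, ?_⟩
    have h2 : S.pt P c w ⟨hc.pre, hc.sub c hcu, hw⟩ < f.symm t := by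
      rw [← f.lt_iff_lt, f.apply_symm_apply]
      exact h1
    exact h2.le

theorem good_one : S.Good 1 := by
  constructor
  · refine ⟨0, 0, fun P _ _ => ⟨P, by simp, fun s w h => h⟩⟩
  · intro P u hc
    obtain ⟨a0, ha0⟩ := hc.ne
    refine ⟨a0, ha0, 1, P, fun a _ _ s w h => ?_⟩
    rw [one_smul]
    exact h

theorem good_mul {f h : S.X ≃o S.X} (hf : S.Good f) (hh : S.Good h) : S.Good (f * h) := by
  obtain ⟨w₀, hw₀⟩ := S.exists_wd
  constructor
  · obtain ⟨d, e, hD⟩ := hf.1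
    obtain ⟨d', e', hD'⟩ := hh.1
    refine ⟨max (max d' (d + e')) 0, e + e', fun P hP hlen => ?_⟩
    have hd' : d' ≤ P.length := le_trans (le_trans (le_max_left _ _) (le_max_left _ _)) hlen
    have hde : d + e' ≤ P.length :=
      le_trans (le_trans (le_max_right _ _) (le_max_left _ _)) hlen
    obtain ⟨P', hP', hh1⟩ := hD' P hP hd'
    have hpre : S.Pre P' := by
      by_cases hPe : ∃ a, a ∈ S.after P
      · obtain ⟨a, ha⟩ := hPe
        have h1 := hh1 (S.pt P a w₀ ⟨hP, ha, hw₀⟩) (cons a w₀) rfl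
        cases hPl : P' with
        | nil => trivial
        | cons b Q =>
          rw [hPl] at h1
          have h2 := S.mem_of_eq (s := h (S.pt P a w₀ ⟨hP, ha, hw₀⟩)) (P := b :: Q) (a := a)
            (w := w₀) h1
          exact h2.1
      · exfalso
        apply hPe
        obtain ⟨a, ha⟩ := S.ne
        cases P with
        | nil => exact ⟨a, S.sub a ha⟩
        | cons b Q => exact ⟨a, ha⟩
    obtain ⟨P'', hP'', hf1⟩ := hD P' hpre (by omega)
    refine ⟨P'', by omega, fun s w hs => ?_⟩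
    exact hf1 (h s) w (hh1 s w hs)
  · intro P u hc
    obtain ⟨a0, ha0, g, P', hg⟩ := hh.2 P u hc
    have hcim := S.cut_im hc ha0 hg
    obtain ⟨b0, hb0, g', P'', hg'⟩ := hf.2 P' _ hcim
    obtain ⟨hb0', a1, ha1, ha10, hle⟩ := hb0
    refine ⟨a1, ha1, g' * g, P'', fun a ha haa s w hs => ?_⟩
    have h1 := hg a ha (haa.trans ha10) s w hs
    have h2 := hg' (g • a) (S.smul_mem_after hc ha0 hg a ha (haa.trans ha10))
      ((act_le S g haa).trans hle) (h s) w h1
    rw [mul_smul]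
    exact h2

/-- the group of good automorphisms -/
def Γ : Subgroup (S.X ≃o S.X) where
  carrier := {f | S.Good f ∧ S.Good f⁻¹}
  mul_mem' := by
    rintro f h ⟨h1, h2⟩ ⟨h3, h4⟩
    refine ⟨S.good_mul h1 h3, ?_⟩
    rw [mul_inv_rev]
    exact S.good_mul h4 h2
  one_mem' := ⟨S.good_one, by rw [inv_one]; exact S.good_one⟩
  inv_mem' := by
    rintro f ⟨h1, h2⟩
    exact ⟨h2, by rw [inv_inv]; exact h1⟩

end Sys

end Pool.Agent.KokorinU

/-! P2b: uniqueness of cuts; the cut of a non-trivial automorphism -/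

set_option autoImplicit false

namespace Pool.Agent.KokorinU

namespace Sys

variable {A 𝒢 : Type u} [LinearOrder A] [Group 𝒢] [MulAction 𝒢 A] (S : Sys A 𝒢)

theorem U_inj_aux {P u P' u'} (hc : S.Cut P u) (hc' : S.Cut P' u') (h : S.U P u = S.U P' u')
    (hl : P.length ≤ P'.length) : P = P' := by
  obtain ⟨w, hw⟩ := S.exists_wd
  obtain ⟨a', ha'⟩ := hc'.ne
  obtain ⟨a₀, ha₀⟩ := hc.ne
  set s := S.pt P' a' w ⟨hc'.pre, hc'.sub a' ha', hw⟩ with hs
  have hsU : s ∈ S.U P u := by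
    rw [h]
    exact (pt_mem_U hc' _).2 ha'
  obtain ⟨a, ha, -, hlt⟩ := exists_small hc ha₀ hsU
  have key : ∀ c ∈ u, c ≤ a → ∃ q, app P (cons c w) = app P' q := by
    intro c hcu hca
    have hcw : S.Pre P ∧ c ∈ S.after P ∧ S.Wd w := ⟨hc.pre, hc.sub c hcu, hw⟩
    have h1 : S.pt P c w hcw ∈ S.U P' u' := by
      rw [← h]
      exact (pt_mem_U hc _).2 hcu
    obtain ⟨b, hb, w', hw', hle⟩ := h1
    have h2 : toLex (app P (cons c w)) ≤ toLex (app P' (cons a' w)) := by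
      have h3 : toLex (app P (cons a w)) < toLex (app P' (cons a' w)) :=
        hlt w ⟨hc.pre, hc.sub a ha, hw⟩
      rcases hca.lt_or_eq with h4 | h4
      · exact ((lt_pt w w h4).trans h3).le
      · rw [h4]; exact h3.le
    exact cyl_convex (t := app P (cons c w)) hle h2
  obtain ⟨q, hq⟩ := key a ha le_rfl
  obtain ⟨R, hR, hq'⟩ := app_eq_app hq hl
  cases R with
  | nil => rw [hR, List.append_nil]
  | cons b R =>
    exfalso
    obtain ⟨c, hcu, hca⟩ := hc.nomin a ha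
    obtain ⟨q2, hq2⟩ := key c hcu hca.le
    obtain ⟨R2, hR2, hq2'⟩ := app_eq_app hq2 hl
    have hRR : R2 = b :: R := by
      have := hR2.symm.trans hR
      exact List.append_cancel_left this
    rw [hRR] at hq2'
    have h1 : a = b := (cons_inj.1 hq').1
    have h2 : c = b := (cons_inj.1 hq2').1
    rw [h1, h2] at hca
    exact lt_irrefl _ hca

theorem U_inj {P u P' u'} (hc : S.Cut P u) (hc' : S.Cut P' u') (h : S.U P u = S.U P' u') :
    P = P' ∧ u = u' := by
  have hP : P = P' := by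
    rcases le_total P.length P'.length with hl | hl
    · exact S.U_inj_aux hc hc' h hl
    · exact (S.U_inj_aux hc' hc h.symm hl).symm
  subst hP
  refine ⟨rfl, ?_⟩
  obtain ⟨w, hw⟩ := S.exists_wd
  ext a
  constructor
  · intro ha
    have h1 : S.pt P a w ⟨hc.pre, hc.sub a ha, hw⟩ ∈ S.U P u := (pt_mem_U hc _).2 ha
    rw [h] at h1
    exact (pt_mem_U hc' _).1 h1
  · intro ha
    have h1 : S.pt P a w ⟨hc.pre, hc'.sub a ha, hw⟩ ∈ S.U P u' := (pt_mem_U hc' _).2 ha
    rw [← h] at h1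
    exact (pt_mem_U hc _).1 h1

variable {S}

theorem mv_up {f : S.X ≃o S.X} {s t : S.X} (hs : s ∈ S.mv f) (h : s ≤ t) : t ∈ S.mv f := by
  obtain ⟨s', hs', hne⟩ := hs
  exact ⟨s', hs'.trans h, hne⟩

theorem not_mv {f : S.X ≃o S.X} {s : S.X} (hs : s ∉ S.mv f) {t : S.X} (h : t ≤ s) :
    f t = t := by
  by_contra hne
  exact hs ⟨t, h, hne⟩

/-- words with a non-empty prefix -/
theorem mem_app {P : List A} (hP : S.Pre P) (hne : P ≠ []) {w : ℕ → A} (hw : S.Wd w) :
    (app P w) 0 ∈ S.V ∧ ∀ i, (app P w) (i + 1) ∈ S.V0 := by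
  rw [← cons_head_tail w]
  refine (S.mem_iff P (w 0) (tail w)).2 ⟨hP, ?_, fun i => hw (i + 1)⟩
  cases P with
  | nil => exact absurd rfl hne
  | cons b P => exact hw 0

theorem wd_of_mem {P : List A} (hne : P ≠ []) {s : S.X} {w : ℕ → A}
    (h : s.1 = toLex (app P w)) : S.Pre P ∧ S.Wd w := by
  rw [← cons_head_tail w] at h
  obtain ⟨h1, h2, h3⟩ := S.mem_of_eq h
  refine ⟨h1, fun i => ?_⟩
  cases i with
  | zero =>
    cases P with
    | nil => exact absurd rfl hne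
    | cons b P => exact h2
  | succ i => exact h3 i

/-- a deep cylinder is contained in `mv f` or in its complement -/
theorem claim {f : S.X ≃o S.X} {P P' : List A} (hne : P ≠ [])
    (hf : ∀ (s : S.X) (w : ℕ → A), s.1 = app P w → (f s).1 = app P' w) {s t : S.X}
    {w w' : ℕ → A} (hs : s.1 = toLex (app P w)) (hsD : s ∉ S.mv f)
    (ht : t.1 = toLex (app P w')) : t ∉ S.mv f := by
  obtain ⟨hP, hw⟩ := wd_of_mem hne hs
  obtain ⟨a, ha, haw⟩ := S.nomin (w 0) (hw 0)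
  set w2 : ℕ → A := cons a (tail w) with hw2
  have hw2d : S.Wd w2 := by
    intro i
    cases i with
    | zero => exact ha
    | succ i => exact hw (i + 1)
  set s2 : S.X := ⟨toLex (app P w2), mem_app hP hne hw2d⟩ with hs2
  have hlt : toLex w2 < toLex w := by
    rw [← cons_head_tail w]
    exact cons_lt_cons.2 (Or.inl haw)
  have hs2s : s2 < s := by
    have h1 : s2.1 < s.1 := by
      rw [hs]
      exact app_lt_app.2 hlt
    exact h1
  have e1 : app P w = app P' w := by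
    have h1 := hf s w hs
    rw [not_mv hsD le_rfl, hs] at h1
    exact h1
  have e2 : app P w2 = app P' w2 := by
    have h1 := hf s2 w2 rfl
    rw [not_mv hsD hs2s.le] at h1
    exact h1
  have hPP : P' = P := by
    rcases le_total P.length P'.length with hl | hl
    · obtain ⟨R, hR, h1⟩ := app_eq_app e1 hl
      obtain ⟨R2, hR2, h2⟩ := app_eq_app e2 hl
      cases R with
      | nil => rw [hR, List.append_nil]
      | cons b R =>
        exfalso
        have hRR : R2 = b :: R := List.append_cancel_left (hR2.symm.trans hR)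
        rw [hRR] at h2
        have h3 : w 0 = b := congrFun h1 0
        have h4 : a = b := congrFun h2 0
        rw [h3, h4] at haw
        exact lt_irrefl _ haw
    · obtain ⟨R, hR, h1⟩ := app_eq_app e1.symm hl
      obtain ⟨R2, hR2, h2⟩ := app_eq_app e2.symm hl
      cases R with
      | nil => rw [hR, List.append_nil]
      | cons b R =>
        exfalso
        have hRR : R2 = b :: R := List.append_cancel_left (hR2.symm.trans hR)
        rw [hRR] at h2
        have h3 : w 0 = b := congrFun h1 0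
        have h4 : a = b := congrFun h2 0
        rw [h3, h4] at haw
        exact lt_irrefl _ haw
  subst hPP
  rintro ⟨s', hs', hmv⟩
  rcases le_total s' s with h1 | h1
  · exact hmv (not_mv hsD h1)
  · have h2 : toLex (app P' w) ≤ s'.1 := by
      have h3 : s.1 ≤ s'.1 := h1
      rw [hs] at h3
      exact h3
    have h4 : s'.1 ≤ toLex (app P' w') := by
      have h3 : s'.1 ≤ t.1 := hs'
      rw [ht] at h3
      exact h3
    obtain ⟨q, hq⟩ := cyl_convex (t := ofLex s'.1) h2 h4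
    apply hmv
    have h5 := hf s' q hq
    exact Subtype.ext (h5.trans hq.symm)

variable (S)

theorem exists_cut {f : S.X ≃o S.X} (hd : S.Deep f) (hf : f ≠ 1) :
    ∃ P u, S.Cut P u ∧ S.mv f = S.U P u := by
  obtain ⟨d, e, hD⟩ := hd
  have hne : ∃ s, f s ≠ s := by
    by_contra hcon
    push Not at hcon
    exact hf (RelIso.ext fun x => hcon x)
  obtain ⟨s₀, hs₀⟩ := hne
  -- prefixes whose cylinder meets both `mv f` and its complement
  let Q : List A → Prop := fun P => S.Pre P ∧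
    (P = [] ∨ ∃ s : S.X, s ∉ S.mv f ∧ ∃ w, s.1 = toLex (app P w)) ∧
    ∃ s : S.X, s ∈ S.mv f ∧ ∃ w, s.1 = toLex (app P w)
  have hQ0 : Q [] := ⟨trivial, Or.inl rfl, s₀, ⟨s₀, le_rfl, hs₀⟩, s₀.1, rfl⟩
  have hQb : ∀ P, Q P → P.length < max d 1 := by
    rintro P ⟨hP, h1, s, hs, w, hw⟩
    by_contra hlen
    push Not at hlen
    have hPne : P ≠ [] := by
      rintro rfl
      simp at hlen
    rcases h1 with h1 | ⟨t, ht, w', hw'⟩
    · exact hPne h1
    · obtain ⟨P', -, hP'⟩ := hD P hP (le_trans (le_max_left _ _) hlen)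
      exact claim hPne hP' hw' ht hw hs
  have hmax : ∃ P, Q P ∧ ∀ P2, Q P2 → P2.length ≤ P.length := by
    by_contra hcon
    push Not at hcon
    have : ∀ n : ℕ, ∃ P, Q P ∧ n ≤ P.length := by
      intro n
      induction n with
      | zero => exact ⟨[], hQ0, Nat.zero_le _⟩
      | succ n ih =>
        obtain ⟨P, hP, hn⟩ := ih
        obtain ⟨P2, hP2, h2⟩ := hcon P hP
        exact ⟨P2, hP2, by omega⟩
    obtain ⟨P, hP, hn⟩ := this (max d 1)
    exact absurd (hQb P hP) (not_lt.2 hn)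
  obtain ⟨P, ⟨hP, hPD, sU, hsU, wU, hwU⟩, hPmax⟩ := hmax
  -- one-letter extensions are contained in `mv f` or in its complement
  have hext : ∀ a ∈ S.after P, ∀ (s t : S.X) (w w' : ℕ → A), s.1 = toLex (app P (cons a w)) →
      t.1 = toLex (app P (cons a w')) → s ∈ S.mv f → t ∈ S.mv f := by
    intro a ha s t w w' hs ht hsm
    by_contra htm
    have hQ : Q (P ++ [a]) := by
      refine ⟨?_, Or.inr ⟨t, htm, w', ?_⟩, s, hsm, w, ?_⟩
      · cases P with
        | nil => exact ⟨ha, by simp⟩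
        | cons b P =>
          refine ⟨hP.1, fun c hc => ?_⟩
          rcases List.mem_append.1 hc with h | h
          · exact hP.2 c h
          · rw [List.mem_singleton.1 h]; exact ha
      · rw [ht, app_append]; rfl
      · rw [hs, app_append]; rfl
    have := hPmax _ hQ
    simp at this
  set u : Set A := {a | a ∈ S.after P ∧ ∃ s ∈ S.mv f, ∃ w, s.1 = toLex (app P (cons a w))}
    with hu
  have hsub : ∀ a ∈ u, a ∈ S.after P := fun a ha => ha.1
  have hall : ∀ a ∈ u, ∀ (t : S.X) (w : ℕ → A), t.1 = toLex (app P (cons a w)) → t ∈ S.mv f := by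
    rintro a ⟨ha, s, hs, w', hw'⟩ t w ht
    exact hext a ha s t w' w hw' ht hs
  have hune : ∃ a, a ∈ u := by
    refine ⟨wU 0, ?_, sU, hsU, tail wU, by rw [cons_head_tail]; exact hwU⟩
    rw [← cons_head_tail wU] at hwU
    exact (S.mem_of_eq hwU).2.1
  obtain ⟨w₀, hw₀⟩ := S.exists_wd
  have hup : ∀ a ∈ u, ∀ b ∈ S.after P, a ≤ b → b ∈ u := by
    intro a ha b hb hab
    refine ⟨hb, S.pt P b w₀ ⟨hP, hb, hw₀⟩, ?_, w₀, rfl⟩
    have h1 := hall a ha (S.pt P a w₀ ⟨hP, hsub a ha, hw₀⟩) w₀ rfl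
    refine mv_up h1 ?_
    rcases hab.lt_or_eq with h | h
    · have h2 : (S.pt P a w₀ ⟨hP, hsub a ha, hw₀⟩).1 < (S.pt P b w₀ ⟨hP, hb, hw₀⟩).1 :=
        lt_pt w₀ w₀ h
      exact le_of_lt h2
    · subst h
      exact le_rfl
  -- a moved-closure point lying below all blocks of `u` has prefix `P`
  have hbelow : ∀ s ∈ S.mv f, (∃ a ∈ u, ∃ w, S.Wd w ∧ s.1 < toLex (app P (cons a w))) →
      ∃ a ∈ u, ∃ w, s.1 = toLex (app P (cons a w)) := by
    rintro s hs ⟨a, ha, w, hw, hlt⟩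
    by_cases hpre : ∃ q, s.1 = toLex (app P q)
    · obtain ⟨q, hq⟩ := hpre
      rw [← cons_head_tail q] at hq
      exact ⟨q 0, ⟨(S.mem_of_eq hq).2.1, s, hs, tail q, hq⟩, tail q, hq⟩
    · exfalso
      have hPne : P ≠ [] := by
        rintro rfl
        exact hpre ⟨s.1, rfl⟩
      rcases hPD with h | ⟨t, ht, r, hr⟩
      · exact hPne h
      · have h1 : s.1 < toLex (app P r) := below_cyl (t := ofLex s.1) hpre hlt
        apply ht
        refine mv_up hs (le_of_lt ?_)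
        have h2 : s.1 < t.1 := by
          rw [hr]; exact h1
        exact h2
  by_cases hmin : ∀ a ∈ u, ∃ b ∈ u, b < a
  · refine ⟨P, u, ⟨hP, hsub, hune, hup, hmin⟩, ?_⟩
    ext s
    constructor
    · intro hs
      by_contra hsU'
      obtain ⟨a, ha⟩ := hune
      have hlt : s.1 < toLex (app P (cons a w₀)) := by
        by_contra hle
        exact hsU' ⟨a, ha, w₀, hw₀, not_lt.1 hle⟩
      obtain ⟨b, hb, w, hw⟩ := hbelow s hs ⟨a, ha, w₀, hw₀, hlt⟩
      apply hsU'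
      refine ⟨b, hb, w, (S.mem_of_eq hw).2.2, ?_⟩
      rw [hw]
    · rintro ⟨a, ha, w, hw, hle⟩
      have h1 := hall a ha (S.pt P a w ⟨hP, hsub a ha, hw⟩) w rfl
      exact mv_up h1 hle
  · push Not at hmin
    obtain ⟨a₁, ha₁, hmin⟩ := hmin
    have hP1 : S.Pre (P ++ [a₁]) := by
      have ha := hsub a₁ ha₁
      revert hP
      cases P with
      | nil => intro _; exact ⟨ha, by simp⟩
      | cons b P =>
        intro hP
        refine ⟨hP.1, fun c hc => ?_⟩
        rcases List.mem_append.1 hc with h | h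
        · exact hP.2 c h
        · rw [List.mem_singleton.1 h]; exact ha
    have haft : S.after (P ++ [a₁]) = S.V0 := by
      cases P <;> rfl
    have happ : ∀ b w, app (P ++ [a₁]) (cons b w) = app P (cons a₁ (cons b w)) := by
      intro b w
      rw [app_append]; rfl
    refine ⟨P ++ [a₁], S.V0, ⟨hP1, fun a ha => by rw [haft]; exact ha, S.ne,
      fun a _ b hb _ => by rw [haft] at hb; exact hb, S.nomin⟩, ?_⟩
    ext s
    constructor
    · intro hs
      by_contra hsU'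
      have hlt : s.1 < toLex (app P (cons a₁ w₀)) := by
        by_contra hle
        apply hsU'
        refine ⟨w₀ 0, hw₀ 0, tail w₀, fun i => hw₀ (i + 1), ?_⟩
        rw [happ, cons_head_tail]
        exact not_lt.1 hle
      obtain ⟨b, hb, w, hw⟩ := hbelow s hs ⟨a₁, ha₁, w₀, hw₀, hlt⟩
      have hb1 : b ≤ a₁ := by
        rw [hw] at hlt
        exact letter_le hlt.le
      have hb2 : b = a₁ := le_antisymm hb1 (hmin b hb)
      apply hsU'
      rw [hb2] at hw
      have hwd := (S.mem_of_eq hw).2.2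
      refine ⟨w 0, hwd 0, tail w, fun i => hwd (i + 1), ?_⟩
      rw [happ, cons_head_tail, hw]
    · rintro ⟨b, hb, w, hw, hle⟩
      rw [happ] at hle
      have hwd : S.Wd (cons b w) := by
        intro i
        cases i with
        | zero => exact hb
        | succ i => exact hw i
      have h1 := hall a₁ ha₁ (S.pt P a₁ (cons b w) ⟨hP, hsub a₁ ha₁, hwd⟩) (cons b w) rfl
      exact mv_up h1 hle

end Sys

end Pool.Agent.KokorinU

/-! P2c: the bi-order on the group of good automorphisms -/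

set_option autoImplicit false

namespace Pool.Agent.KokorinU

namespace Sys

variable {A 𝒢 : Type u} [LinearOrder A] [Group 𝒢] [MulAction 𝒢 A] (S : Sys A 𝒢)

/-- explicit form of positivity -/
def Pos' (f : S.X ≃o S.X) : Prop :=
  ∃ P u g a0, S.Cut P u ∧ S.pos g ∧ a0 ∈ u ∧ (∀ a ∈ u, a ≤ a0 → S.Germ f P g P a) ∧
    (∀ s, s ∉ S.U P u → f s = s) ∧ ∀ a ∈ u, ∃ b ∈ u, b ≤ a ∧ g • b ≠ b

variable {S}

theorem moves {f : S.X ≃o S.X} {P : List A} {u : Set A} {a0 : A} {g : 𝒢} (hc : S.Cut P u)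
    (h0 : a0 ∈ u) (hg : ∀ a ∈ u, a ≤ a0 → S.Germ f P g P a) (hmv : S.mv f = S.U P u) :
    ∀ a ∈ u, ∃ b ∈ u, b ≤ a ∧ g • b ≠ b := by
  intro a ha
  obtain ⟨w, hw⟩ := S.exists_wd
  have haU : S.pt P a w ⟨hc.pre, hc.sub a ha, hw⟩ ∈ S.U P u := (pt_mem_U hc _).2 ha
  obtain ⟨a₃, ha₃, h30, hlt⟩ := exists_small hc h0 haU
  have h3 : S.pt P a₃ w ⟨hc.pre, hc.sub a₃ ha₃, hw⟩ ∈ S.mv f := by
    rw [hmv]; exact (pt_mem_U hc _).2 ha₃
  obtain ⟨z, hz, hzmv⟩ := h3
  have hzU : z ∈ S.U P u := by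
    rw [← hmv]; exact ⟨z, le_rfl, hzmv⟩
  obtain ⟨b, hb, w', hw', hle⟩ := hzU
  obtain ⟨q, hq⟩ := cyl_convex (t := ofLex z.1) hle hz
  have hq' : z.1 = toLex (app P (cons (q 0) (tail q))) := by
    rw [cons_head_tail]; exact hq
  have hmem := S.mem_of_eq hq'
  have hb1 : b ≤ q 0 := by
    rw [hq'] at hle
    exact letter_le hle
  have hb2 : q 0 ≤ a₃ := by
    have h4 : z.1 ≤ toLex (app P (cons a₃ w)) := hz
    rw [hq'] at h4
    exact letter_le h4
  have hqu : q 0 ∈ u := hc.up b hb (q 0) hmem.2.1 hb1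
  have h3a : a₃ < a := by
    have h5 := hlt w ⟨hc.pre, hc.sub a₃ ha₃, hw⟩
    rcases lt_trichotomy a₃ a with h | h | h
    · exact h
    · exfalso
      subst h
      exact lt_irrefl _ h5
    · exfalso
      have h6 : toLex (app P (cons a w)) < toLex (app P (cons a₃ w)) := lt_pt w w h
      have h7 : toLex (app P (cons a₃ w)) < toLex (app P (cons a w)) := h5
      exact lt_asymm h6 h7
  refine ⟨q 0, hqu, hb2.trans h3a.le, fun hgc => hzmv ?_⟩
  have h8 := hg (q 0) hqu (hb2.trans h30.le) z (tail q) hq'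
  rw [hgc] at h8
  exact Subtype.ext (h8.trans hq'.symm)

theorem Pos'.of_pos {f : S.X ≃o S.X} (hf : S.Pos f) : S.Pos' f := by
  obtain ⟨P, u, hc, hmv, a0, h0, g, hpos, hg⟩ := hf
  refine ⟨P, u, g, a0, hc, hpos, h0, hg, ?_, moves hc h0 hg hmv⟩
  intro s hs
  rw [← hmv] at hs
  exact not_mv hs le_rfl

theorem Pos'.pos {f : S.X ≃o S.X} (hf : S.Pos' f) : S.Pos f := by
  obtain ⟨P, u, g, a0, hc, hpos, h0, hg, hfix, hmove⟩ := hf
  refine ⟨P, u, hc, ?_, a0, h0, g, hpos, hg⟩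
  ext s
  constructor
  · rintro ⟨s', hs', hne⟩
    by_contra hs
    exact hne (hfix s' fun h => hs (U_up h hs'))
  · intro hs
    obtain ⟨w, hw⟩ := S.exists_wd
    obtain ⟨a, ha, haa, hlt⟩ := exists_small hc h0 hs
    obtain ⟨b, hb, hba, hmv⟩ := hmove a ha
    have hbw : S.Pre P ∧ b ∈ S.after P ∧ S.Wd w := ⟨hc.pre, hc.sub b hb, hw⟩
    refine ⟨S.pt P b w hbw, ?_, ?_⟩
    · have haw : S.Pre P ∧ a ∈ S.after P ∧ S.Wd w := ⟨hc.pre, hc.sub a ha, hw⟩
      rcases hba.lt_or_eq with h | h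
      · have h1 : S.pt P b w hbw < S.pt P a w haw := lt_pt w w h
        exact (h1.trans (hlt w haw)).le
      · subst h
        exact (hlt w haw).le
    · intro he
      obtain ⟨h', h1⟩ := (hg b hb (hba.trans haa.le)).apply hbw
      rw [he] at h1
      have h2 : app P (cons b w) = app P (cons (g • b) w) := congrArg Subtype.val h1
      exact hmv (cons_inj.1 (app_inj.1 h2)).1.symm

theorem im_surj {f : S.X ≃o S.X} (hf' : S.Tame f⁻¹) {P : List A} {u : Set A} {a0 : A} {g : 𝒢}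
    {P' : List A} (hc : S.Cut P u) (h0 : a0 ∈ u)
    (hg : ∀ a ∈ u, a ≤ a0 → S.Germ f P g P' a) :
    ∃ a1 ∈ u, a1 ≤ a0 ∧ ∀ c ∈ S.im P' u a0 g, c ≤ g • a1 → ∃ a ∈ u, a ≤ a1 ∧ g • a = c := by
  obtain ⟨w, hw⟩ := S.exists_wd
  have hcim := S.cut_im hc h0 hg
  obtain ⟨c0, hc0, g'', P'', hg''⟩ := hf' P' _ hcim
  have hcim2 := S.cut_im hcim hc0 hg''
  have hU1 := S.U_im hc h0 hg
  have hU2 := S.U_im hcim hc0 hg''
  have hU3 : S.U P'' (S.im P'' (S.im P' u a0 g) c0 g'') = S.U P u := by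
    rw [← hU2, ← hU1, Set.image_image]
    have : ∀ x : S.X, (f⁻¹ : S.X ≃o S.X) (f x) = x := fun x => f.symm_apply_apply x
    simp only [this, Set.image_id']
  obtain ⟨rfl, hu⟩ := S.U_inj hcim2 hc hU3
  obtain ⟨hc0', a, ha, haa, hle⟩ := hc0
  obtain ⟨a1, ha1, h1a⟩ := hc.nomin a ha
  refine ⟨a1, ha1, h1a.le.trans haa, ?_⟩
  intro c hcu hca
  have hcc0 : c ≤ c0 := hca.trans (((S.mono g a1 a h1a).le).trans hle)
  have hgc : g'' • c ∈ u := by
    have h2 := S.smul_mem_after hcim ⟨hc0', a, ha, haa, hle⟩ hg'' c hcu hcc0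
    rw [hu] at h2
    exact h2
  have hcw : S.Pre P' ∧ c ∈ S.after P' ∧ S.Wd w := ⟨hcim.pre, hcu.1, hw⟩
  obtain ⟨h', h3⟩ := (hg'' c hcu hcc0).apply hcw
  have h4 : f (S.pt P'' (g'' • c) w h') = S.pt P' c w hcw := by
    rw [← h3]
    exact f.apply_symm_apply _
  have h1a0 : a1 ≤ a0 := h1a.le.trans haa
  have hle1 : g'' • c ≤ a1 := by
    by_contra hcon
    have h5 : a1 < g'' • c := not_le.1 hcon
    have ha1w : S.Pre P'' ∧ a1 ∈ S.after P'' ∧ S.Wd w := ⟨hc.pre, hc.sub a1 ha1, hw⟩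
    have h6 : S.pt P'' a1 w ha1w < S.pt P'' (g'' • c) w h' := lt_pt w w h5
    have h7 := f.lt_iff_lt.2 h6
    obtain ⟨h'', h8⟩ := (hg a1 ha1 h1a0).apply ha1w
    rw [h4, h8] at h7
    have h9 : toLex (app P' (cons (g • a1) w)) < toLex (app P' (cons c w)) := h7
    have h10 : g • a1 ≤ c := letter_le h9.le
    have h11 : c = g • a1 := le_antisymm hca h10
    rw [h11] at h9
    exact lt_irrefl _ h9
  refine ⟨g'' • c, hgc, hle1, ?_⟩
  obtain ⟨h'', h8⟩ := (hg (g'' • c) hgc (hle1.trans h1a0)).apply h'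
  rw [h4] at h8
  have h9 : app P' (cons c w) = app P' (cons (g • g'' • c) w) := congrArg Subtype.val h8
  exact (cons_inj.1 (app_inj.1 h9)).1.symm

theorem fix_mem {f : S.X ≃o S.X} {V : Set S.X} (hV : ∀ x, x ∉ V → f x = x) (x : S.X) :
    f x ∈ V ↔ x ∈ V := by
  constructor
  · intro h
    by_contra hx
    rw [hV x hx] at h
    exact hx h
  · intro h
    by_contra hx
    have h1 := hV (f x) hx
    have h2 : f x = x := f.injective h1
    rw [h2] at hx
    exact hx h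

theorem germ_small {f : S.X ≃o S.X} {P : List A} {u : Set A} (hc : S.Cut P u) {g : 𝒢} {a2 : A}
    (ha2 : a2 ∈ u) (hg : ∀ a ∈ u, a ≤ a2 → S.Germ f P g P a)
    (hf : ∀ x, f x ∈ S.U P u ↔ x ∈ S.U P u) {a1 : A} (ha1 : a1 ∈ u) :
    ∃ a0 ∈ u, a0 ≤ a1 ∧ a0 ≤ a2 ∧ ∀ a ∈ u, a ≤ a0 → g • a ∈ u ∧ g • a ≤ a1 := by
  obtain ⟨w, hw⟩ := S.exists_wd
  have ha1w : S.Pre P ∧ a1 ∈ S.after P ∧ S.Wd w := ⟨hc.pre, hc.sub a1 ha1, hw⟩
  have hx : f.symm (S.pt P a1 w ha1w) ∈ S.U P u := by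
    rw [← hf, OrderIso.apply_symm_apply]
    exact (pt_mem_U hc _).2 ha1
  obtain ⟨a3, ha3, h32, h3x⟩ := exists_small hc ha2 hx
  have ha3w : S.Pre P ∧ a3 ∈ S.after P ∧ S.Wd w := ⟨hc.pre, hc.sub a3 ha3, hw⟩
  have h31 : g • a3 ≤ a1 := by
    have h6 := f.lt_iff_lt.2 (h3x w ha3w)
    rw [OrderIso.apply_symm_apply] at h6
    obtain ⟨h', h7⟩ := (hg a3 ha3 h32.le).apply ha3w
    rw [h7] at h6
    have h8 : toLex (app P (cons (g • a3) w)) < toLex (app P (cons a1 w)) := h6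
    exact letter_le h8.le
  obtain ⟨a0, ha0, h01, h03⟩ : ∃ a0 ∈ u, a0 ≤ a1 ∧ a0 ≤ a3 := by
    rcases le_total a1 a3 with h | h
    · exact ⟨a1, ha1, le_rfl, h⟩
    · exact ⟨a3, ha3, h, le_rfl⟩
  refine ⟨a0, ha0, h01, h03.trans h32.le, fun a ha haa => ⟨?_, ?_⟩⟩
  · have haw : S.Pre P ∧ a ∈ S.after P ∧ S.Wd w := ⟨hc.pre, hc.sub a ha, hw⟩
    obtain ⟨h', h7⟩ := (hg a ha ((haa.trans h03).trans h32.le)).apply haw
    rw [← pt_mem_U hc h', ← h7, hf]
    exact (pt_mem_U hc _).2 ha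
  · exact (act_le S g (haa.trans h03)).trans h31

theorem U_total {P P' : List A} {u u' : Set A} : S.U P u ⊆ S.U P' u' ∨ S.U P' u' ⊆ S.U P u := by
  by_cases h : S.U P u ⊆ S.U P' u'
  · exact Or.inl h
  · right
    rw [Set.not_subset] at h
    obtain ⟨x, hx, hx'⟩ := h
    intro y hy
    rcases le_total x y with h1 | h1
    · exact U_up hx h1
    · exact absurd (U_up hy h1) hx'

theorem Pos'.conj {f h : S.X ≃o S.X} (hf : S.Pos' f) (hh : S.Tame h) (hh' : S.Tame h⁻¹) :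
    S.Pos' (h * f * h⁻¹) := by
  obtain ⟨P, u, g, a2, hc, hpos, ha2, hg, hfix, hmove⟩ := hf
  obtain ⟨b0, hb0, k, P', hk⟩ := hh P u hc
  obtain ⟨a1, ha1, h1b, hsurj⟩ := im_surj hh' hc hb0 hk
  have hcim := S.cut_im hc hb0 hk
  have hU := S.U_im hc hb0 hk
  have hfU := fix_mem (f := f) hfix
  obtain ⟨a0, ha0, h01, h02, h0⟩ := germ_small hc ha2 hg hfU ha1
  have himg : ∀ x, h x ∈ S.U P' (S.im P' u b0 k) ↔ x ∈ S.U P u := by
    intro x
    rw [← hU]
    exact h.injective.mem_set_image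
  have hk5 : ∀ a : A, (k * g * k⁻¹) • k • a = k • g • a := by
    intro a
    simp [mul_smul]
  refine ⟨P', S.im P' u b0 k, k * g * k⁻¹, k • a0, hcim, S.cone.conj k g hpos,
    S.smul_mem_after hc hb0 hk a0 ha0 (h01.trans h1b), ?_, ?_, ?_⟩
  · intro c hcu hca s w hs
    obtain ⟨a, ha, haa, rfl⟩ := hsurj c hcu (hca.trans (act_le S k h01))
    have haa0 : a ≤ a0 := by
      have := act_le S k⁻¹ hca
      simpa using this
    have h3 := h0 a ha haa0
    have hw := (S.mem_of_eq hs).2.2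
    have haw : S.Pre P ∧ a ∈ S.after P ∧ S.Wd w := ⟨hc.pre, hc.sub a ha, hw⟩
    obtain ⟨h', h4⟩ := (hk a ha (haa.trans h1b)).apply haw
    obtain ⟨h'', h5⟩ := (hg a ha (haa0.trans h02)).apply haw
    have h6 := hk (g • a) h3.1 (h3.2.trans h1b) (S.pt P (g • a) w h'') w rfl
    have h7 : s = h (S.pt P a w haw) := by
      rw [h4]
      exact Subtype.ext hs
    have h8 : (h * f * h⁻¹) s = h (f (h.symm s)) := rfl
    rw [hk5, h8, h7, OrderIso.symm_apply_apply, h5]
    exact h6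
  · intro x hx
    have h6 : (h * f * h⁻¹) x = h (f (h.symm x)) := rfl
    have h7 : h.symm x ∉ S.U P u := by
      rw [← himg, OrderIso.apply_symm_apply]
      exact hx
    rw [h6, hfix _ h7, OrderIso.apply_symm_apply]
  · intro c hcu
    obtain ⟨b, hb, hba1, hbc⟩ : ∃ b ∈ u, b ≤ a1 ∧ k • b ≤ c := by
      rcases le_total c (k • a1) with h | h
      · obtain ⟨a, ha, haa, rfl⟩ := hsurj c hcu h
        exact ⟨a, ha, haa, le_rfl⟩
      · exact ⟨a1, ha1, le_rfl, h⟩
    obtain ⟨a, ha, hab, hmv⟩ := hmove b hb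
    refine ⟨k • a, S.smul_mem_after hc hb0 hk a ha ((hab.trans hba1).trans h1b),
      (act_le S k hab).trans hbc, ?_⟩
    rw [hk5]
    intro h8
    exact hmv (MulAction.injective k h8)

theorem Pos'.mul {f₁ f₂ : S.X ≃o S.X} (h₁ : S.Pos' f₁) (h₂ : S.Pos' f₂) :
    S.Pos' (f₁ * f₂) := by
  obtain ⟨P₁, u₁, g₁, c₁, hu₁, hpos₁, hc₁, hg₁, hfix₁, hmove₁⟩ := h₁
  obtain ⟨P₂, u₂, g₂, c₂, hu₂, hpos₂, hc₂, hg₂, hfix₂, hmove₂⟩ := h₂
  have hmul : ∀ x, (f₁ * f₂) x = f₁ (f₂ x) := fun _ => rfl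
  have hf₁ := fix_mem (f := f₁) hfix₁
  have hf₂ := fix_mem (f := f₂) hfix₂
  by_cases h12 : S.U P₁ u₁ ⊆ S.U P₂ u₂
  · by_cases h21 : S.U P₂ u₂ ⊆ S.U P₁ u₁
    · obtain ⟨rfl, rfl⟩ := S.U_inj hu₁ hu₂ (Set.Subset.antisymm h12 h21)
      obtain ⟨a0, ha0, h01, h02, h0⟩ := germ_small hu₁ hc₂ hg₂ hf₂ hc₁
      refine ⟨P₁, u₁, g₁ * g₂, a0, hu₁, S.cone.mul _ _ hpos₁ hpos₂, ha0, ?_, ?_, ?_⟩
      · intro a ha haa s w hs
        have h3 := h0 a ha haa
        have h4 := hg₂ a ha (haa.trans h02) s w hs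
        rw [mul_smul]
        exact hg₁ (g₂ • a) h3.1 h3.2 (f₂ s) w h4
      · intro x hx
        rw [hmul, hfix₂ x hx, hfix₁ x hx]
      · intro a ha
        obtain ⟨b, hb, hba, hmv⟩ := hmove₂ a ha
        exact ⟨b, hb, hba, fun h => hmv (S.conv g₁ g₂ b hpos₁ hpos₂ h)⟩
    · rw [Set.not_subset] at h21
      obtain ⟨x, hx, hx'⟩ := h21
      obtain ⟨a2, ha2, -, h2x⟩ := exists_small hu₂ hc₂ hx
      obtain ⟨a0, ha0, h01, h02, h0⟩ := germ_small hu₂ hc₂ hg₂ hf₂ ha2
      have hnot : ∀ a ∈ u₂, a ≤ a2 → ∀ w h, S.pt P₂ a w h ∉ S.U P₁ u₁ := by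
        intro a ha haa w h hmem
        have ha2w : S.Pre P₂ ∧ a2 ∈ S.after P₂ ∧ S.Wd w := ⟨hu₂.pre, hu₂.sub a2 ha2, h.2.2⟩
        refine hx' ?_
        rcases haa.lt_or_eq with h1 | h1
        · have h3 : S.pt P₂ a w h < S.pt P₂ a2 w ha2w := lt_pt w w h1
          exact U_up hmem (h3.trans (h2x w ha2w)).le
        · subst h1
          exact U_up hmem (h2x w ha2w).le
      refine ⟨P₂, u₂, g₂, a0, hu₂, hpos₂, ha0, ?_, ?_, hmove₂⟩
      · intro a ha haa s w hs
        have h3 := h0 a ha haa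
        have h4 := hg₂ a ha (haa.trans h02) s w hs
        have h5 := S.eq_pt h4
        have h6 : f₂ s ∉ S.U P₁ u₁ := by
          rw [h5]
          exact hnot _ h3.1 h3.2 w _
        rw [hmul, hfix₁ _ h6]
        exact h4
      · intro y hy
        rw [hmul, hfix₂ y hy, hfix₁ y (fun h => hy (h12 h))]
  · have h21 : S.U P₂ u₂ ⊆ S.U P₁ u₁ := by
      rcases U_total (S := S) (P := P₁) (P' := P₂) (u := u₁) (u' := u₂) with h | h
      · exact absurd h h12
      · exact h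
    rw [Set.not_subset] at h12
    obtain ⟨x, hx, hx'⟩ := h12
    obtain ⟨a2, ha2, -, h2x⟩ := exists_small hu₁ hc₁ hx
    obtain ⟨a0, ha0, h01, h02⟩ : ∃ a0 ∈ u₁, a0 ≤ c₁ ∧ a0 ≤ a2 := by
      rcases le_total c₁ a2 with h | h
      · exact ⟨c₁, hc₁, le_rfl, h⟩
      · exact ⟨a2, ha2, h, le_rfl⟩
    refine ⟨P₁, u₁, g₁, a0, hu₁, hpos₁, ha0, ?_, ?_, hmove₁⟩
    · intro a ha haa s w hs
      have h4 := hg₁ a ha (haa.trans h01) s w hs
      have h5 : s ∉ S.U P₂ u₂ := by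
        intro hmem
        have hw := (S.mem_of_eq hs).2.2
        have ha2w : S.Pre P₁ ∧ a2 ∈ S.after P₁ ∧ S.Wd w := ⟨hu₁.pre, hu₁.sub a2 ha2, hw⟩
        refine hx' (U_up hmem (le_of_lt ?_))
        refine lt_of_le_of_lt ?_ (h2x w ha2w)
        have h6 : s.1 ≤ toLex (app P₁ (cons a2 w)) := by
          rw [hs]
          rcases (haa.trans h02).lt_or_eq with h1 | h1
          · exact (lt_pt w w h1).le
          · rw [h1]
            exact le_refl (toLex (app P₁ (cons a2 w)))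
        exact h6
      rw [hmul, hfix₂ _ h5]
      exact h4
    · intro y hy
      rw [hmul, hfix₂ y (fun h => hy (h21 h)), hfix₁ y hy]

theorem not_pos'_one : ¬ S.Pos' 1 := by
  rintro ⟨P, u, g, a0, hc, -, ha0, hg, -, hmove⟩
  obtain ⟨w, hw⟩ := S.exists_wd
  obtain ⟨b, hb, hba, hmv⟩ := hmove a0 ha0
  have hbw : S.Pre P ∧ b ∈ S.after P ∧ S.Wd w := ⟨hc.pre, hc.sub b hb, hw⟩
  have h1 := hg b hb hba (S.pt P b w hbw) w rfl
  have h2 : app P (cons b w) = app P (cons (g • b) w) := h1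
  exact hmv (cons_inj.1 (app_inj.1 h2)).1.symm

/-- the germ of a non-trivial automorphism at its cut -/
theorem germ_at_cut {f : S.X ≃o S.X} (hf : S.Good f) (h1 : f ≠ 1) :
    ∃ P u a0 g, S.Cut P u ∧ S.mv f = S.U P u ∧ a0 ∈ u ∧ g ≠ 1 ∧
      (∀ a ∈ u, a ≤ a0 → S.Germ f P g P a) ∧ (∀ s, s ∉ S.U P u → f s = s) ∧
      ∀ a ∈ u, ∃ b ∈ u, b ≤ a ∧ g • b ≠ b := by
  obtain ⟨P, u, hc, hmv⟩ := S.exists_cut hf.1 h1
  have hfix : ∀ s, s ∉ S.U P u → f s = s := by
    intro s hs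
    rw [← hmv] at hs
    exact not_mv hs le_rfl
  have hfU := fix_mem (f := f) hfix
  obtain ⟨a0, ha0, g, P', hg⟩ := hf.2 P u hc
  have hU := S.U_im hc ha0 hg
  have hUU : f '' S.U P u = S.U P u := by
    ext x
    constructor
    · rintro ⟨y, hy, rfl⟩
      exact (hfU y).2 hy
    · intro hx
      refine ⟨f.symm x, ?_, f.apply_symm_apply x⟩
      rw [← hfU, f.apply_symm_apply]
      exact hx
  rw [hUU] at hU
  obtain ⟨rfl, -⟩ := S.U_inj hc (S.cut_im hc ha0 hg) hU
  have hmoves := moves hc ha0 hg hmv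
  refine ⟨P, u, a0, g, hc, hmv, ha0, ?_, hg, hfix, hmoves⟩
  rintro rfl
  obtain ⟨b, -, -, hb⟩ := hmoves a0 ha0
  exact hb (one_smul _ b)

theorem pos'_total {f : S.X ≃o S.X} (hf : S.Good f) (hf' : S.Tame f⁻¹) (h1 : f ≠ 1) :
    S.Pos' f ∨ S.Pos' f⁻¹ := by
  obtain ⟨P, u, a0, g, hc, hmv, ha0, hg1, hg, hfix, hmoves⟩ := germ_at_cut hf h1
  have hfU := fix_mem (f := f) hfix
  rcases S.cone.total g hg1 with hpos | hpos
  · exact Or.inl ⟨P, u, g, a0, hc, hpos, ha0, hg, hfix, hmoves⟩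
  · right
    obtain ⟨a1, ha1, h10, hsurj⟩ := im_surj hf' hc ha0 hg
    have him : S.im P u a0 g = u := by
      have hU := S.U_im hc ha0 hg
      have hUU : f '' S.U P u = S.U P u := by
        ext x
        constructor
        · rintro ⟨y, hy, rfl⟩
          exact (hfU y).2 hy
        · intro hx
          refine ⟨f.symm x, ?_, f.apply_symm_apply x⟩
          rw [← hfU, f.apply_symm_apply]
          exact hx
      rw [hUU] at hU
      exact (S.U_inj hc (S.cut_im hc ha0 hg) hU).2.symm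
    refine ⟨P, u, g⁻¹, g • a1, hc, hpos, ?_, ?_, ?_, ?_⟩
    · have := S.smul_mem_after hc ha0 hg a1 ha1 h10
      rw [him] at this
      exact this
    · intro c hcu hca s w hs
      rw [← him] at hcu
      obtain ⟨a, ha, haa, rfl⟩ := hsurj c hcu hca
      rw [inv_smul_smul]
      have hw := (S.mem_of_eq hs).2.2
      have haw : S.Pre P ∧ a ∈ S.after P ∧ S.Wd w := ⟨hc.pre, hc.sub a ha, hw⟩
      obtain ⟨h', h4⟩ := (hg a ha (haa.trans h10)).apply haw
      have h5 : s = f (S.pt P a w haw) := by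
        rw [h4]
        exact Subtype.ext hs
      have h6 : (f⁻¹ : S.X ≃o S.X) s = f.symm s := rfl
      rw [h6, h5, OrderIso.symm_apply_apply]
      rfl
    · intro x hx
      have h4 := hfix x hx
      have h6 : (f⁻¹ : S.X ≃o S.X) x = f.symm x := rfl
      rw [h6]
      conv_lhs => rw [← h4]
      rw [OrderIso.symm_apply_apply]
    · intro a ha
      obtain ⟨b, hb, hba, hmv'⟩ := hmoves a ha
      refine ⟨b, hb, hba, fun h => hmv' ?_⟩
      conv_lhs => rw [← h]
      rw [smul_inv_smul]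

variable (S)

theorem germ_order : IsCone (fun f : S.Γ => S.Pos f.1) where
  one := fun h => not_pos'_one (Pos'.of_pos h)
  mul := fun a b ha hb => (Pos'.mul (Pos'.of_pos ha) (Pos'.of_pos hb)).pos
  conj := fun g a ha => (Pos'.conj (Pos'.of_pos ha) g.2.1.2 g.2.2.2).pos
  total := by
    intro a ha
    have h1 : a.1 ≠ 1 := fun h => ha (Subtype.ext h)
    rcases pos'_total a.2.1 a.2.2.2 h1 with h | h
    · exact Or.inl h.pos
    · exact Or.inr h.pos

theorem pos_of_germ (f : S.X ≃o S.X) (hf : S.Good f) (h1 : f ≠ 1) (g : 𝒢) (hg : S.pos g)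
    (h : ∀ a, S.Germ f [] g [] a) : S.Pos f := by
  obtain ⟨P, u, a0, g', hc, hmv, ha0, hg1, hg', hfix, hmoves⟩ := germ_at_cut hf h1
  cases P with
  | nil =>
    refine Pos'.pos ⟨[], u, g, a0, hc, hg, ha0, fun a _ _ => h a, hfix, ?_⟩
    exact moves hc ha0 (fun a _ _ => h a) hmv
  | cons b P =>
    exfalso
    -- near the cut `f` acts on the first letter only, and fixes the prefix
    obtain ⟨w, hw⟩ := S.exists_wd
    obtain ⟨c, hcu, hca, hmv'⟩ := hmoves a0 ha0
    have hcw : S.Pre (b :: P) ∧ c ∈ S.after (b :: P) ∧ S.Wd w := ⟨hc.pre, hc.sub c hcu, hw⟩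
    have h2 := hg' c hcu hca (S.pt (b :: P) c w hcw) w rfl
    have h3 := h b (S.pt (b :: P) c w hcw) (app P (cons c w)) rfl
    rw [h2] at h3
    have h4 : cons b (app P (cons (g' • c) w)) = cons (g • b) (app P (cons c w)) := h3
    have h5 := (cons_inj.1 h4).2
    exact hmv' (cons_inj.1 (app_inj.1 h5)).1

end Sys

end Pool.Agent.KokorinU

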